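import Mathlib
import Pool.Agent.H389R3.LR1

/-!
# The logarithmic potential at `1` of a finite set of complex numbers of small energy
-/

set_option autoImplicit false

open Complex Finset

namespace Pool.Agent.TH869.LS

open Pool.Agent.H388SL Pool.Agent.H389R3.LR

/-- Cauchy–Schwarz in the form used below -/
lemma sq_le_of_forall {x a b : ℝ} (hx : 0 ≤ x) (ha : 0 ≤ a) (hb : 0 ≤ b)
    (h : ∀ ε : ℝ, 0 < ε → x ≤ ε / 2 * a + 1 / (2 * ε) * b) : x ^ 2 ≤ a * b := by
  rcases hx.eq_or_lt with hx0 | hx0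
  · rw [← hx0]
    have := mul_nonneg ha hb
    simpa using this
  rcases ha.eq_or_lt with ha0 | ha0
  · exfalso
    have h1 := h ((b + 1) / x) (by positivity)
    rw [← ha0] at h1
    have h2 : 1 / (2 * ((b + 1) / x)) * b = x * (b / (b + 1)) / 2 := by
      field_simp
    rw [h2] at h1
    have h3 : b / (b + 1) ≤ 1 := by
      rw [div_le_one (by positivity)]; linarith
    nlinarith
  · have h1 := h (x / a) (by positivity)
    have h2 : x / a / 2 * a = x / 2 := by field_simp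
    have h3 : 1 / (2 * (x / a)) * b = a * b / (2 * x) := by field_simp
    rw [h2, h3] at h1
    have h4 : x / 2 ≤ a * b / (2 * x) := by linarith
    rw [le_div_iff₀ (by positivity)] at h4
    nlinarith

/-- the potential at `1` is bounded by the energy -/
lemma potential_le (Z : Finset ℂ) {t : ℝ} (ht0 : 0 ≤ t) (ht1 : t < 1)
    {E : ℝ} (hE : ∀ L : ℕ, ∑ k ∈ Finset.range L, t ^ k / k * ‖∑ z ∈ Z, refl z ^ k‖ ^ 2 ≤ E)
    {ε : ℝ} (hε : 0 < ε) :
    ∑ z ∈ Z, Real.log ‖1 - (t : ℂ) * refl z‖ ≤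
      ε / 2 * Real.log (1 / (1 - t)) + 1 / (2 * ε) * E := by
  have hnorm : ∀ z : ℂ, ‖(t : ℂ) * refl z‖ < 1 := by
    intro z
    rw [norm_mul, Complex.norm_real, Real.norm_of_nonneg ht0]
    nlinarith [norm_nonneg (refl z), norm_refl_le z]
  have hs : HasSum (fun k : ℕ => ∑ z ∈ Z, - (((t : ℂ) * refl z) ^ k / k).re)
      (∑ z ∈ Z, Real.log ‖1 - (t : ℂ) * refl z‖) := by
    refine hasSum_sum fun z _ => ?_
    have h := Complex.hasSum_re (Complex.hasSum_taylorSeries_neg_log (hnorm z))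
    rw [Complex.neg_re, Complex.log_re] at h
    have h2 := h.neg
    rw [neg_neg] at h2
    exact h2
  refine le_of_tendsto' hs.tendsto_sum_nat fun L => ?_
  have hterm : ∀ k : ℕ, ∑ z ∈ Z, - (((t : ℂ) * refl z) ^ k / k).re ≤
      ε / 2 * (t ^ k / k) + 1 / (2 * ε) * (t ^ k / k * ‖∑ z ∈ Z, refl z ^ k‖ ^ 2) := by
    intro k
    set S : ℂ := ∑ z ∈ Z, refl z ^ k with hS
    have hc0 : 0 ≤ t ^ k / k := by positivity
    have e1 : ∑ z ∈ Z, - (((t : ℂ) * refl z) ^ k / k).re = - ((t ^ k / k : ℝ) * S).re := by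
      rw [Finset.sum_neg_distrib, hS, Finset.mul_sum, Complex.re_sum]
      congr 1
      refine Finset.sum_congr rfl fun z _ => ?_
      rw [mul_pow]
      push_cast
      congr 1
      ring
    rw [e1, Complex.re_ofReal_mul]
    have h1 : - (t ^ k / k * S.re) ≤ t ^ k / k * ‖S‖ := by
      have h3 := (abs_le.mp (Complex.abs_re_le_norm S)).1
      nlinarith
    have h2 : ‖S‖ ≤ ε / 2 + 1 / (2 * ε) * ‖S‖ ^ 2 := by
      have h3 : 0 ≤ (ε - ‖S‖) ^ 2 / (2 * ε) := by positivity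
      have h4 : (ε - ‖S‖) ^ 2 / (2 * ε) = ε / 2 + 1 / (2 * ε) * ‖S‖ ^ 2 - ‖S‖ := by
        field_simp
        ring
      linarith
    have h5 := mul_le_mul_of_nonneg_left h2 hc0
    calc - (t ^ k / k * S.re) ≤ t ^ k / k * ‖S‖ := h1
      _ ≤ t ^ k / k * (ε / 2 + 1 / (2 * ε) * ‖S‖ ^ 2) := h5
      _ = _ := by ring
  have hlog : ∑ k ∈ Finset.range L, t ^ k / k ≤ Real.log (1 / (1 - t)) := by
    have h := Complex.hasSum_re (Complex.hasSum_taylorSeries_neg_log (z := (t:ℂ)) (by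
      rw [Complex.norm_real, Real.norm_of_nonneg ht0]; exact ht1))
    have e2 : (-Complex.log (1 - (t:ℂ))).re = Real.log (1 / (1 - t)) := by
      rw [Complex.neg_re, Complex.log_re]
      have e3 : (1 - (t:ℂ)) = ((1 - t : ℝ) : ℂ) := by push_cast; rfl
      rw [e3, Complex.norm_real, Real.norm_of_nonneg (by linarith), one_div, Real.log_inv]
    rw [e2] at h
    have e4 : ∀ k : ℕ, ((t:ℂ) ^ k / k).re = t ^ k / k := by
      intro k
      have : ((t:ℂ) ^ k / k) = ((t ^ k / k : ℝ) : ℂ) := by push_cast; rfl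
      rw [this, Complex.ofReal_re]
    simp_rw [e4] at h
    exact sum_le_hasSum (Finset.range L) (fun n _ => by positivity) h
  calc ∑ k ∈ Finset.range L, ∑ z ∈ Z, - (((t : ℂ) * refl z) ^ k / k).re ≤
      ∑ k ∈ Finset.range L, (ε / 2 * (t ^ k / k)
        + 1 / (2 * ε) * (t ^ k / k * ‖∑ z ∈ Z, refl z ^ k‖ ^ 2)) :=
        Finset.sum_le_sum fun k _ => hterm k
    _ = ε / 2 * ∑ k ∈ Finset.range L, t ^ k / k
        + 1 / (2 * ε) * ∑ k ∈ Finset.range L, (t ^ k / k * ‖∑ z ∈ Z, refl z ^ k‖ ^ 2) := by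
        rw [Finset.sum_add_distrib, Finset.mul_sum, Finset.mul_sum]
    _ ≤ _ := by
        have h1 := mul_le_mul_of_nonneg_left hlog (by positivity : 0 ≤ ε / 2)
        have h2 := mul_le_mul_of_nonneg_left (hE L) (by positivity : 0 ≤ 1 / (2 * ε))
        linarith

/-- the reflection and the distance to `1` -/
lemma log_one_sub_refl {z : ℂ} (hz1 : z ≠ 1) (hz0 : z ≠ 0) :
    Real.log ‖1 - refl z‖ = Real.log ‖1 - z‖ - Real.log (max 1 ‖z‖) := by
  unfold Pool.Agent.H388SL.refl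
  split_ifs with h
  · rw [max_eq_left h, Real.log_one, sub_zero]
  · have hz : 0 < ‖z‖ := norm_pos_iff.mpr hz0
    have hc : starRingEnd ℂ z ≠ 0 := (map_ne_zero _).mpr hz0
    rw [max_eq_right (not_le.mp h).le]
    have e : 1 - (starRingEnd ℂ z)⁻¹ = - starRingEnd ℂ (1 - z) / starRingEnd ℂ z := by
      rw [map_sub, map_one]
      field_simp
      ring
    rw [e, norm_div, norm_neg, RCLike.norm_conj, RCLike.norm_conj, Real.log_div]
    · rw [norm_ne_zero_iff]; exact sub_ne_zero.mpr hz1.symm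
    · exact hz.ne'

/-- main inequality for the potential at `1` -/
theorem potential_sq (Z : Finset ℂ) (h0 : (0:ℂ) ∉ Z) (h1 : (1:ℂ) ∉ Z) (hne : 1 ≤ Z.card)
    (hdisc : 0 ≤ ∑ z ∈ Z, ∑ w ∈ Z, (if z = w then 0 else Real.log ‖z - w‖))
    {x : ℝ} (hx : 0 ≤ x)
    (hxle : x ≤ ∑ z ∈ Z, Real.log ‖1 - z‖ - ∑ z ∈ Z, Real.log (max 1 ‖z‖) - 1) :
    x ^ 2 ≤ Real.log Z.card * (2 * Z.card * (∑ z ∈ Z, Real.log (max 1 ‖z‖)) +
      Z.card * (1 + Real.log Z.card)) := by
  set N := Z.card with hN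
  set Λ := ∑ z ∈ Z, Real.log (max 1 ‖z‖) with hΛ
  have hΛ0 : 0 ≤ Λ := Finset.sum_nonneg fun z _ => Real.log_nonneg (le_max_left _ _)
  have hN1' : (1:ℝ) ≤ N := by exact_mod_cast hne
  have hN0 : (0:ℝ) < N := by linarith
  have hlogN : 0 ≤ Real.log N := Real.log_nonneg hN1'
  set t : ℝ := 1 - 1 / N with ht
  have hNinv : 1 / (N:ℝ) ≤ 1 := by
    rw [div_le_one hN0]; exact hN1'
  have hNinv0 : 0 < 1 / (N:ℝ) := by positivity
  have ht0 : 0 ≤ t := by rw [ht]; linarith
  have ht1 : t < 1 := by rw [ht]; linarith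
  have h2 : Real.log (2 / (1 + t)) ≤ 1 / N := by
    have h3 : 0 < 2 / (1 + t) := by positivity
    have h4 := Real.log_le_sub_one_of_pos h3
    have h5 : 2 / (1 + t) - 1 ≤ 1 / N := by
      have h6 : 2 / (1 + t) - 1 = (1 - t) / (1 + t) := by
        field_simp
        ring
      rw [h6]
      have h7 : 1 - t = 1 / N := by rw [ht]; ring
      rw [h7]
      exact div_le_self hNinv0.le (by linarith)
    linarith
  have h8 : Real.log (1 / (1 - t)) = Real.log N := by
    congr 1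
    rw [ht]
    have : (N:ℝ) ≠ 0 := hN0.ne'
    field_simp
    ring
  set E : ℝ := 2 * N * Λ + N * (1 + Real.log N) with hE
  have hE0 : 0 ≤ E := by rw [hE]; positivity
  have hEb : ∀ L : ℕ, ∑ k ∈ Finset.range L, t ^ k / k * ‖∑ z ∈ Z, refl z ^ k‖ ^ 2 ≤ E := by
    intro L
    have h1 := energyL Z ht0 ht1 L
    have h9 : (N:ℝ) ^ 2 * Real.log (2 / (1 + t)) ≤ N := by
      have := mul_le_mul_of_nonneg_left h2 (by positivity : (0:ℝ) ≤ (N:ℝ) ^ 2)
      have e : (N:ℝ) ^ 2 * (1 / N) = N := by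
        have : (N:ℝ) ≠ 0 := hN0.ne'
        field_simp
      linarith
    rw [h8] at h1
    rw [hE]
    linarith
  apply sq_le_of_forall hx hlogN hE0
  intro ε hε
  have hpot := potential_le Z ht0 ht1 hEb hε
  rw [h8] at hpot
  refine le_trans ?_ hpot
  refine hxle.trans ?_
  -- compare the potentials
  have hpt : ∀ z ∈ Z, Real.log ‖1 - z‖ - Real.log (max 1 ‖z‖) - 1 / N ≤
      Real.log ‖1 - (t : ℂ) * refl z‖ := by
    intro z hz
    have hz0 : z ≠ 0 := fun h => h0 (h ▸ hz)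
    have hz1 : z ≠ 1 := fun h => h1 (h ▸ hz)
    rw [← log_one_sub_refl hz1 hz0]
    have h3 := one_sub_le ht0 ht1 (refl z) (norm_refl_le z)
    have h4 : 0 < ‖1 - refl z‖ := by
      rw [norm_pos_iff]
      intro h
      have h5 : refl z = 1 := (sub_eq_zero.mp h).symm
      unfold Pool.Agent.H388SL.refl at h5
      split_ifs at h5 with h6
      · exact hz1 h5
      · have h7 := inv_eq_one.mp h5
        have h8 := congrArg (starRingEnd ℂ) h7
        rw [Complex.conj_conj, map_one] at h8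
        exact hz1 h8
    have h2t : 0 < 2 / (1 + t) := by positivity
    have h5 : 0 < ‖1 - (t : ℂ) * refl z‖ := by
      rcases (norm_nonneg (1 - (t : ℂ) * refl z)).lt_or_eq with h | h
      · exact h
      · rw [← h, mul_zero] at h3
        linarith
    have h6 := Real.log_le_log h4 h3
    rw [Real.log_mul h2t.ne' h5.ne'] at h6
    linarith
  have hsum := Finset.sum_le_sum hpt
  rw [Finset.sum_sub_distrib, Finset.sum_sub_distrib, Finset.sum_const, nsmul_eq_mul, ← hN] at hsum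
  have e : (N:ℝ) * (1 / N) = 1 := by
    have : (N:ℝ) ≠ 0 := hN0.ne'
    field_simp
  rw [e] at hsum
  exact hsum

end Pool.Agent.TH869.LS
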