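import Mathlib
import Pool.Agent.H389R3.LR2

/-!
# Counting the members of a finite set of complex numbers of small energy in a thin sector
-/

set_option autoImplicit false

open Complex Finset

namespace Pool.Agent.TH869.LS

open Pool.Agent.H388SL Pool.Agent.H389R3.LR

/-- the members with argument at most `θ` in absolute value -/
noncomputable def sec (θ : ℝ) (Z : Finset ℂ) : Finset ℂ := by
  classical exact Z.filter (fun z => |Complex.arg z| ≤ θ)

/-- point of the thin sector near the circle -/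
lemma kernel_sector {r : ℝ} (hr0 : 0 ≤ r) (hr1 : r < 1) {b : ℂ} (hb1 : ‖b‖ ≤ 1) (hb : r ≤ ‖b‖)
    (harg : |Complex.arg b| ≤ 1 - r) :
    2 / (5 * (1 - r)) ≤ ((1 - (r : ℂ) * b)⁻¹).re := by
  set d : ℝ := 1 - r with hd
  have hd0 : 0 < d := by rw [hd]; linarith
  set ρ : ℝ := ‖b‖ with hρ
  set θ : ℝ := Complex.arg b with hθ
  have hre : b.re = ρ * Real.cos θ := (Complex.norm_mul_cos_arg b).symm
  have him : b.im = ρ * Real.sin θ := (Complex.norm_mul_sin_arg b).symm
  set x : ℝ := 1 - r * ρ with hx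
  have hρ0 : 0 ≤ ρ := norm_nonneg _
  have hx1 : d ≤ x := by rw [hx, hd]; nlinarith
  have hx2 : x ≤ 2 * d := by
    rw [hx, hd]
    nlinarith
  have hx0 : 0 < x := by linarith
  have hcos : Real.cos θ ≤ 1 := Real.cos_le_one θ
  have hcos2 : 1 - θ ^ 2 / 2 ≤ Real.cos θ := Real.one_sub_sq_div_two_le_cos
  have hθ2 : θ ^ 2 ≤ d ^ 2 := by
    have := pow_le_pow_left₀ (abs_nonneg θ) harg 2
    rwa [sq_abs] at this
  have hrρ : 0 ≤ r * ρ := mul_nonneg hr0 hρ0
  have hrρ1 : r * ρ ≤ 1 := by nlinarith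
  rw [Complex.inv_re]
  have e1 : (1 - (r : ℂ) * b).re = 1 - r * ρ * Real.cos θ := by
    simp [hre]; ring
  have e2 : Complex.normSq (1 - (r : ℂ) * b) = x ^ 2 + 2 * (r * ρ) * (1 - Real.cos θ) := by
    rw [Complex.normSq_apply]
    simp only [Complex.sub_re, Complex.one_re, Complex.mul_re, Complex.ofReal_re,
      Complex.ofReal_im, Complex.sub_im, Complex.one_im, Complex.mul_im, hre, him]
    have := Real.sin_sq_add_cos_sq θ
    rw [hx]
    have h2 : (r * (ρ * Real.sin θ)) ^ 2 = r ^ 2 * ρ ^ 2 * (1 - Real.cos θ ^ 2) := by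
      rw [← this]; ring
    nlinarith
  have h3 : 2 * (r * ρ) * (1 - Real.cos θ) ≤ d ^ 2 := by
    have h4 : 1 - Real.cos θ ≤ d ^ 2 / 2 := by linarith
    have h5 : 0 ≤ 1 - Real.cos θ := by linarith
    nlinarith
  have h3' : 0 ≤ 2 * (r * ρ) * (1 - Real.cos θ) := by
    have h5 : 0 ≤ 1 - Real.cos θ := by linarith
    positivity
  have h6 : x ≤ 1 - r * ρ * Real.cos θ := by
    rw [hx]; nlinarith
  rw [e1, e2]
  rw [div_le_div_iff₀ (by positivity) (by positivity)]
  have h7 : 2 * (x ^ 2 + d ^ 2) ≤ x * (5 * d) := by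
    nlinarith [mul_nonneg (by linarith : 0 ≤ 2 * x - d) (by linarith : 0 ≤ 2 * d - x)]
  have h8 : 2 * (x ^ 2 + 2 * (r * ρ) * (1 - Real.cos θ)) ≤ 2 * (x ^ 2 + d ^ 2) := by linarith
  have h9 : x * (5 * d) ≤ (1 - r * ρ * Real.cos θ) * (5 * d) :=
    mul_le_mul_of_nonneg_right h6 (by positivity)
  linarith

lemma norm_refl_eq (z : ℂ) : ‖refl z‖ = if ‖z‖ ≤ 1 then ‖z‖ else ‖z‖⁻¹ := by
  unfold Pool.Agent.H388SL.refl
  split_ifs with h
  · rfl
  · rw [norm_inv, RCLike.norm_conj]

lemma arg_refl (z : ℂ) (hz : ¬ ‖z‖ ≤ 1 → Complex.arg z ≠ Real.pi) :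
    Complex.arg (refl z) = Complex.arg z := by
  unfold Pool.Agent.H388SL.refl
  split_ifs with h
  · rfl
  · rw [Complex.arg_inv, Complex.arg_conj, if_neg (hz h), if_neg]
    · ring
    · intro h2
      have h3 := Complex.neg_pi_lt_arg z
      linarith

/-- main counting inequality -/
theorem count_sector (Z : Finset ℂ) (θ : ℝ) (hθ : θ ≤ ((sec θ Z).card : ℝ) / (8 * Z.card))
    (h0 : (0:ℂ) ∉ Z)
    (hdisc : 0 ≤ ∑ z ∈ Z, ∑ w ∈ Z, (if z = w then 0 else Real.log ‖z - w‖))
    (hprod : 0 ≤ ∑ z ∈ Z, Real.log ‖z‖) :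
    ((sec θ Z).card : ℝ) ^ 2 ≤ 130 * Z.card * (∑ z ∈ Z, Real.log (max 1 ‖z‖)) +
      52 * Z.card * (1 + Real.log Z.card) := by
  classical
  set N := Z.card with hN
  set P := (sec θ Z).card with hP
  set Λ := ∑ z ∈ Z, Real.log (max 1 ‖z‖) with hΛ
  have hΛ0 : 0 ≤ Λ := Finset.sum_nonneg fun z _ => Real.log_nonneg (le_max_left _ _)
  have hPZ : sec θ Z ⊆ Z := by
    unfold sec; exact Finset.filter_subset _ _
  have hPN : P ≤ N := Finset.card_le_card hPZ
  have hlogN : 0 ≤ Real.log N := Real.log_natCast_nonneg N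
  rcases Nat.eq_zero_or_pos P with hP0 | hPpos
  · rw [hP0]
    have : 0 ≤ 130 * (N:ℝ) * Λ + 52 * N * (1 + Real.log N) := by positivity
    simpa using this
  have hN1 : 1 ≤ N := le_trans hPpos hPN
  have hN1' : (1:ℝ) ≤ N := by exact_mod_cast hN1
  rcases Nat.lt_or_ge P 8 with hP8 | hP8
  · have h1 : (P:ℝ) ≤ 7 := by exact_mod_cast Nat.lt_succ_iff.mp hP8
    have h2 : (P:ℝ) ^ 2 ≤ 49 := by nlinarith [Nat.cast_nonneg (α := ℝ) P]
    have h3 : 0 ≤ 130 * (N:ℝ) * Λ := by positivity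
    have h4 : 0 ≤ 52 * (N:ℝ) * Real.log N := by positivity
    nlinarith
  have hP8' : (8:ℝ) ≤ P := by exact_mod_cast hP8
  have hPN' : (P:ℝ) ≤ N := by exact_mod_cast hPN
  have hN0 : (0:ℝ) < N := by linarith
  have hP0' : (0:ℝ) < P := by linarith
  set δ : ℝ := P / (8 * N) with hδ
  have hδ0 : 0 < δ := by positivity
  have hδ1 : δ ≤ 1 / 8 := by
    rw [hδ, div_le_div_iff₀ (by positivity) (by norm_num)]; linarith
  set r : ℝ := 1 - δ with hr
  set t : ℝ := 1 - 1 / N with ht
  have hNinv : 1 / (N:ℝ) ≤ 1 := by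
    rw [div_le_one hN0]; exact hN1'
  have hNinv0 : 0 < 1 / (N:ℝ) := by positivity
  have ht0 : 0 ≤ t := by rw [ht]; linarith
  have ht1 : t < 1 := by rw [ht]; linarith
  have hr0 : 0 ≤ r := by rw [hr]; linarith
  have hrt : r ≤ t := by
    rw [hr, ht, hδ]
    have : 1 / (N:ℝ) ≤ P / (8 * N) := by
      rw [div_le_div_iff₀ hN0 (by positivity)]
      nlinarith
    linarith
  have hr1 : r < 1 := lt_of_le_of_lt hrt ht1
  -- the energy bound
  set E : ℝ := 2 * N * Λ + N + N * Real.log N with hE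
  have hEb : ∀ L : ℕ, ∑ k ∈ Finset.range L, t ^ k / k * ‖∑ z ∈ Z, refl z ^ k‖ ^ 2 ≤ E := by
    intro L
    have h1 := energyL Z ht0 ht1 L
    have h2 : Real.log (2 / (1 + t)) ≤ 1 / N := by
      have h3 : 0 < 2 / (1 + t) := by positivity
      have h4 := Real.log_le_sub_one_of_pos h3
      have h5 : 2 / (1 + t) - 1 ≤ 1 / N := by
        have h6 : 2 / (1 + t) - 1 = (1 - t) / (1 + t) := by
          field_simp
          ring
        rw [h6]
        have h7 : 1 - t = 1 / N := by rw [ht]; ring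
        rw [h7]
        exact div_le_self hNinv0.le (by linarith)
      linarith
    have h8 : Real.log (1 / (1 - t)) = Real.log N := by
      congr 1
      rw [ht]
      have : (N:ℝ) ≠ 0 := hN0.ne'
      field_simp
      ring
    have h9 : (N:ℝ) ^ 2 * Real.log (2 / (1 + t)) ≤ N := by
      have := mul_le_mul_of_nonneg_left h2 (by positivity : (0:ℝ) ≤ (N:ℝ) ^ 2)
      have e : (N:ℝ) ^ 2 * (1 / N) = N := by
        have : (N:ℝ) ≠ 0 := hN0.ne'
        field_simp
      linarith
    rw [h8] at h1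
    rw [hE]
    linarith
  have hE0 : 0 ≤ E := by rw [hE]; positivity
  -- near and far
  set near := (sec θ Z).filter (fun z => r ≤ ‖refl z‖) with hnear
  set far := (sec θ Z).filter (fun z => ¬ r ≤ ‖refl z‖) with hfar
  have hcard : near.card + far.card = P := by
    rw [hnear, hfar, hP]; exact Finset.card_filter_add_card_filter_not _
  have hθδ : θ ≤ δ := by rw [hδ]; exact hθ
  have harg : ∀ z ∈ sec θ Z, |Complex.arg (refl z)| ≤ 1 - r := by
    intro z hz
    unfold sec at hz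
    rw [Finset.mem_filter] at hz
    have h1 : 1 - r = δ := by rw [hr]; ring
    rw [h1, arg_refl z]
    · linarith [hz.2]
    · intro _ h2
      have h3 := hz.2
      rw [h2, abs_of_pos Real.pi_pos] at h3
      linarith [Real.pi_gt_three]
  -- kernel lower bound
  set ε : ℝ := P / 16 * δ with hε
  have hε0 : 0 < ε := by positivity
  have hker := sum_kernel_le Z hr0 hrt ht1 hEb hε0
  have hlow : (near.card : ℝ) * (2 / (5 * δ)) + (N - near.card) * (1 / 2) ≤
      ∑ z ∈ Z, ((1 - (r : ℂ) * refl z)⁻¹).re := by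
    have hsub : near ⊆ Z := (Finset.filter_subset _ _).trans hPZ
    rw [← Finset.sum_sdiff hsub]
    have h1 : (near.card : ℝ) * (2 / (5 * δ)) ≤ ∑ z ∈ near, ((1 - (r : ℂ) * refl z)⁻¹).re := by
      rw [← nsmul_eq_mul, ← Finset.sum_const]
      refine Finset.sum_le_sum fun z hz => ?_
      rw [hnear, Finset.mem_filter] at hz
      have h5 := kernel_sector hr0 hr1 (norm_refl_le z) hz.2 (harg z hz.1)
      have e : 1 - r = δ := by rw [hr]; ring
      rw [e] at h5
      exact h5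
    have h2 : ((N:ℝ) - near.card) * (1 / 2) ≤ ∑ z ∈ Z \ near, ((1 - (r : ℂ) * refl z)⁻¹).re := by
      have hc : ((Z \ near).card : ℝ) = N - near.card := by
        rw [Finset.card_sdiff_of_subset hsub, Nat.cast_sub (Finset.card_le_card hsub)]
      rw [← hc, ← nsmul_eq_mul, ← Finset.sum_const]
      exact Finset.sum_le_sum fun z _ => half_le_re hr0 hr1 (norm_refl_le z)
    linarith
  -- far
  have hfarb : (far.card : ℝ) * δ ≤ 2 * Λ := by
    have habs : ∑ z ∈ Z, |Real.log ‖z‖| ≤ 2 * Λ := by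
      have h1 : ∀ z ∈ Z, |Real.log ‖z‖| = 2 * Real.log (max 1 ‖z‖) - Real.log ‖z‖ := by
        intro z hz
        have hz0 : 0 < ‖z‖ := norm_pos_iff.mpr (fun h => h0 (h ▸ hz))
        rcases le_total ‖z‖ 1 with h | h
        · rw [max_eq_left h, Real.log_one, abs_of_nonpos (Real.log_nonpos hz0.le h)]; ring
        · rw [max_eq_right h, abs_of_nonneg (Real.log_nonneg h)]; ring
      rw [Finset.sum_congr rfl h1, Finset.sum_sub_distrib, ← Finset.mul_sum]
      linarith
    have h2 : (far.card : ℝ) * δ ≤ ∑ z ∈ far, |Real.log ‖z‖| := by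
      rw [← nsmul_eq_mul, ← Finset.sum_const]
      refine Finset.sum_le_sum fun z hz => ?_
      rw [hfar, Finset.mem_filter] at hz
      have hx : 0 < ‖z‖ := norm_pos_iff.mpr (fun h => h0 (h ▸ hPZ hz.1))
      have h3 := hz.2
      push Not at h3
      rw [norm_refl_eq] at h3
      split_ifs at h3 with h
      · have h5 := Real.log_le_sub_one_of_pos hx
        rw [abs_of_nonpos (Real.log_nonpos hx.le h)]
        rw [hr] at h3
        linarith
      · have h5 := Real.log_le_sub_one_of_pos (inv_pos.mpr hx)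
        rw [Real.log_inv] at h5
        rw [abs_of_nonneg (Real.log_nonneg (not_le.mp h).le)]
        rw [hr] at h3
        linarith
    have h3 : ∑ z ∈ far, |Real.log ‖z‖| ≤ ∑ z ∈ Z, |Real.log ‖z‖| :=
      Finset.sum_le_sum_of_subset_of_nonneg ((Finset.filter_subset _ _).trans hPZ)
        fun z _ _ => abs_nonneg _
    linarith
  -- combination
  have hnc : (near.card : ℝ) + far.card = P := by exact_mod_cast hcard
  have e1 : ε / 2 * (1 / (1 - r) ^ 2) = P / (32 * δ) := by
    have e : 1 - r = δ := by rw [hr]; ring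
    rw [e, hε]
    field_simp
    ring
  have e2 : 1 / (2 * ε) * E = 8 * E / (P * δ) := by
    rw [hε]
    field_simp
    ring
  rw [e1, e2] at hker
  have hmain : (near.card : ℝ) * (2 / (5 * δ)) + (N - near.card) * (1 / 2) ≤
      N + P / (32 * δ) + 8 * E / (P * δ) := hlow.trans hker
  -- multiply by 2 δ
  have hmul := mul_le_mul_of_nonneg_left hmain (by positivity : 0 ≤ 2 * δ)
  have e3 : 2 * δ * ((near.card : ℝ) * (2 / (5 * δ)) + (N - near.card) * (1 / 2)) =
      4 / 5 * near.card + δ * (N - near.card) := by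
    field_simp
    try ring
  have e4 : 2 * δ * (N + P / (32 * δ) + 8 * E / (P * δ)) = 2 * δ * N + P / 16 + 16 * E / P := by
    field_simp
    ring
  rw [e3, e4] at hmul
  have e5 : δ * N = P / 8 := by
    rw [hδ]; field_simp
  have hnear0 : (0:ℝ) ≤ near.card := Nat.cast_nonneg _
  have hfar0 : (0:ℝ) ≤ far.card := Nat.cast_nonneg _
  have h10 : (near.card : ℝ) * (27 / 40) ≤ P / 8 + P / 16 + 16 * E / P := by
    have h11 : δ * near.card ≤ 1 / 8 * near.card := mul_le_mul_of_nonneg_right hδ1 hnear0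
    have h12 : δ * (N - near.card) = P / 8 - δ * near.card := by rw [mul_sub, e5]
    have h13 : 2 * δ * N = P / 4 := by
      have : 2 * δ * N = 2 * (δ * N) := by ring
      rw [this, e5]; ring
    rw [h12, h13] at hmul
    linarith
  have h14 : (far.card : ℝ) ≤ 16 * N * Λ / P := by
    have h15 : (far.card : ℝ) ≤ 2 * Λ / δ := by
      rw [le_div_iff₀ hδ0]; exact hfarb
    have e6 : 2 * Λ / δ = 16 * N * Λ / P := by
      rw [hδ]; field_simp; ring
    rw [e6] at h15
    exact h15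
  have h16 : (P:ℝ) * (27 / 40) ≤ 3 / 16 * P + 16 * E / P + 54 / 5 * N * Λ / P := by
    have h17 : (far.card : ℝ) * (27 / 40) ≤ 54 / 5 * N * Λ / P := by
      have : 54 / 5 * N * Λ / P = (16 * N * Λ / P) * (27 / 40) := by ring
      rw [this]
      exact mul_le_mul_of_nonneg_right h14 (by norm_num)
    have : (P:ℝ) * (27 / 40) = (near.card : ℝ) * (27 / 40) + far.card * (27 / 40) := by
      rw [← hnc]; ring
    linarith
  have h18 : 39 / 80 * (P:ℝ) ^ 2 ≤ 16 * E + 54 / 5 * N * Λ := by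
    have h19 := mul_le_mul_of_nonneg_right h16 hP0'.le
    have e7 : (3 / 16 * (P:ℝ) + 16 * E / P + 54 / 5 * N * Λ / P) * P =
        3 / 16 * (P:ℝ) ^ 2 + 16 * E + 54 / 5 * N * Λ := by
      field_simp
    rw [e7] at h19
    have h22 : (P:ℝ) * (27 / 40) * P = 27 / 40 * (P:ℝ) ^ 2 := by ring
    linarith
  rw [hE] at h18
  have h20 : 0 ≤ (N:ℝ) * Λ := by positivity
  have h21 : 0 ≤ (N:ℝ) * Real.log N := by positivity
  nlinarith

end Pool.Agent.TH869.LS
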