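import Mathlib
import Pool.Agent.H389R3.LR5
import Pool.Agent.TH869.LS.S1

/-!
# The conjugates of `α, α ^ 2, …, α ^ k` and the thin sector
-/

set_option autoImplicit false

open Finset Polynomial Module

namespace Pool.Agent.TH869.LS

open Pool.Agent.H388SL Pool.Agent.H389R3.LR

variable {K : Type*} [Field K] [NumberField K]

/-- the conjugates of `α, α ^ 2, …, α ^ k` -/
noncomputable def Zk (α : K) (k : ℕ) : Finset ℂ := by
  classical exact (Finset.Icc 1 k).biUnion fun m => conjSet (α ^ m)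

lemma mem_Zk {α : K} {k : ℕ} {z : ℂ} : z ∈ Zk α k ↔ ∃ m ∈ Finset.Icc 1 k, z ∈ conjSet (α ^ m) := by
  classical
  unfold Zk
  rw [Finset.mem_biUnion]

lemma Zk_disj {α : K} (hα : IsIntegral ℤ α) (h0 : α ≠ 0)
    (hroot : ∀ n : ℕ, 0 < n → α ^ n ≠ 1) (k : ℕ) :
    Set.PairwiseDisjoint (↑(Finset.Icc 1 k)) (fun m => conjSet (α ^ m)) := by
  intro m _ l _ hml
  exact conj_disjoint hα h0 hroot hml

lemma Zk_zero {α : K} (h0 : α ≠ 0) (k : ℕ) : (0:ℂ) ∉ Zk α k := by
  intro h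
  rw [mem_Zk] at h
  obtain ⟨m, _, hm⟩ := h
  obtain ⟨σ, hσ⟩ := mem_conjSet.mp hm
  rw [map_pow] at hσ
  have h2 : σ α = 0 := by
    exact pow_eq_zero_iff (M₀ := ℂ) (n := m) (by
      rintro rfl
      simp at hσ) |>.mp hσ
  exact h0 ((map_eq_zero σ).mp h2)

lemma Zk_map {α : K} (hα : IsIntegral ℤ α) (h0 : α ≠ 0)
    (hroot : ∀ n : ℕ, 0 < n → α ^ n ≠ 1) (k : ℕ) :
    (∏ m ∈ Finset.Icc 1 k, minpoly ℤ (α ^ m)).map (Int.castRingHom ℂ) =
      ∏ z ∈ Zk α k, (X - C z) := by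
  classical
  unfold Zk
  rw [Polynomial.map_prod, Finset.prod_biUnion (Zk_disj hα h0 hroot k)]
  exact Finset.prod_congr rfl fun m _ => minpolyZ_map (hα.pow m)

lemma Zk_disc {α : K} (hα : IsIntegral ℤ α) (h0 : α ≠ 0)
    (hroot : ∀ n : ℕ, 0 < n → α ^ n ≠ 1) (k : ℕ) :
    0 ≤ ∑ z ∈ Zk α k, ∑ w ∈ Zk α k, (if z = w then 0 else Real.log ‖z - w‖) := by
  classical
  have hd := one_le_disc_of _ (Zk α k) (Zk_map hα h0 hroot k)
  have h1 : Real.log (∏ z ∈ Zk α k, ∏ w ∈ (Zk α k).erase z, ‖z - w‖) =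
      ∑ z ∈ Zk α k, ∑ w ∈ Zk α k, (if z = w then 0 else Real.log ‖z - w‖) := by
    have hne : ∀ z ∈ Zk α k, ∀ w ∈ (Zk α k).erase z, ‖z - w‖ ≠ 0 := by
      intro z _ w hw
      rw [norm_ne_zero_iff]
      exact sub_ne_zero.mpr (Finset.ne_of_mem_erase hw).symm
    rw [Real.log_prod fun z hz => Finset.prod_ne_zero_iff.mpr (hne z hz)]
    refine Finset.sum_congr rfl fun z hz => ?_
    rw [Real.log_prod (hne z hz), ← Finset.add_sum_erase (Zk α k) _ hz, if_pos rfl, zero_add]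
    refine Finset.sum_congr rfl fun w hw => ?_
    rw [if_neg (Finset.ne_of_mem_erase hw).symm]
  rw [← h1]
  exact Real.log_nonneg hd

lemma Zk_prod {α : K} (hα : IsIntegral ℤ α) (h0 : α ≠ 0)
    (hroot : ∀ n : ℕ, 0 < n → α ^ n ≠ 1) (k : ℕ) :
    0 ≤ ∑ z ∈ Zk α k, Real.log ‖z‖ := by
  have hZ0 := Zk_zero h0 k
  have hp := one_le_prod_of _ (Zk α k) (Zk_map hα h0 hroot k) hZ0
  rw [← Real.log_prod fun z hz => norm_ne_zero_iff.mpr fun h => hZ0 (h ▸ hz)]
  exact Real.log_nonneg hp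

lemma Zk_card (α : K) (k : ℕ) : (Zk α k).card ≤ finrank ℚ K * k := by
  classical
  unfold Zk
  refine Finset.card_biUnion_le.trans ?_
  refine (Finset.sum_le_sum fun m _ => card_conjSet_le (α ^ m)).trans ?_
  rw [Finset.sum_const, Nat.card_Icc, smul_eq_mul]
  simp [mul_comm]

lemma Zk_lam {α : K} (hα : IsIntegral ℤ α) (h0 : α ≠ 0)
    (hroot : ∀ n : ℕ, 0 < n → α ^ n ≠ 1) (k : ℕ) :
    ∑ z ∈ Zk α k, Real.log (max 1 ‖z‖) ≤ k ^ 2 * lam α := by
  classical
  unfold Zk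
  rw [Finset.sum_biUnion (Zk_disj hα h0 hroot k)]
  have h1 : ∀ m ∈ Finset.Icc 1 k, ∑ z ∈ conjSet (α ^ m), Real.log (max 1 ‖z‖) ≤ k * lam α := by
    intro m hm
    refine (sum_conjSet_le (α ^ m) _ fun z => Real.log_nonneg (le_max_left _ _)).trans ?_
    have h2 := lam_pow α m
    unfold lam at h2
    rw [h2]
    have h3 : (m:ℝ) ≤ k := by exact_mod_cast (Finset.mem_Icc.mp hm).2
    exact mul_le_mul_of_nonneg_right h3 (lam_nonneg α)
  refine (Finset.sum_le_sum h1).trans ?_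
  rw [Finset.sum_const, Nat.card_Icc, nsmul_eq_mul]
  simp only [Nat.add_sub_cancel]
  apply le_of_eq
  ring

/-- the argument of a power -/
lemma arg_pow_of_small {z : ℂ} (hz : z ≠ 0) {m : ℕ} (hm : 1 ≤ m)
    (h : m * |Complex.arg z| < Real.pi) : Complex.arg (z ^ m) = m * Complex.arg z := by
  have hn : 0 < ‖z‖ := norm_pos_iff.mpr hz
  have h1 : z ^ m = ((‖z‖ ^ m : ℝ) : ℂ) * (Complex.cos ((m * Complex.arg z : ℝ) : ℂ) +
      Complex.sin ((m * Complex.arg z : ℝ) : ℂ) * Complex.I) := by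
    conv_lhs => rw [← Complex.norm_mul_exp_arg_mul_I z]
    rw [mul_pow, ← Complex.exp_nat_mul, ← Complex.exp_mul_I]
    push_cast
    ring_nf
  rw [h1]
  have h2 : |(m:ℝ) * Complex.arg z| < Real.pi := by
    rw [abs_mul, Nat.abs_cast]; exact h
  rw [abs_lt] at h2
  exact Complex.arg_mul_cos_add_sin_mul_I (pow_pos hn m) ⟨h2.1, h2.2.le⟩

lemma card_sec_pow {α : K} (h0 : α ≠ 0) {θ : ℝ} {k m : ℕ} (hm : 1 ≤ m) (hmk : m ≤ k)
    (hθ : k * θ < Real.pi / 2) :
    (sec θ (conjSet α)).card ≤ (sec (k * θ) (conjSet (α ^ m))).card := by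
  classical
  have hm0 : (0:ℝ) < m := by exact_mod_cast hm
  have hmk' : (m:ℝ) ≤ k := by exact_mod_cast hmk
  have key : ∀ z ∈ sec θ (conjSet α), z ≠ 0 ∧ m * |Complex.arg z| ≤ k * θ ∧
      Complex.arg (z ^ m) = m * Complex.arg z := by
    intro z hz
    unfold sec at hz
    rw [Finset.mem_filter] at hz
    obtain ⟨σ, hσ⟩ := mem_conjSet.mp hz.1
    have hz0 : z ≠ 0 := by rw [← hσ]; exact (map_ne_zero σ).mpr h0
    have h1 : m * |Complex.arg z| ≤ k * θ :=
      mul_le_mul hmk' hz.2 (abs_nonneg _) (by positivity)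
    exact ⟨hz0, h1, arg_pow_of_small hz0 hm (by linarith [Real.pi_pos])⟩
  refine Finset.card_le_card_of_injOn (fun z => z ^ m) ?_ ?_
  · intro z hz
    rw [Finset.mem_coe] at hz
    obtain ⟨hz0, h1, h2⟩ := key z hz
    unfold sec at hz
    rw [Finset.mem_filter] at hz
    obtain ⟨σ, hσ⟩ := mem_conjSet.mp hz.1
    rw [Finset.mem_coe]
    unfold sec
    rw [Finset.mem_filter]
    refine ⟨mem_conjSet.mpr ⟨σ, by rw [map_pow, hσ]⟩, ?_⟩
    dsimp only
    rw [h2, abs_mul, Nat.abs_cast]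
    exact h1
  · intro z hz w hw h
    rw [Finset.mem_coe] at hz hw
    obtain ⟨hz0, _, h2⟩ := key z hz
    obtain ⟨hw0, _, h4⟩ := key w hw
    dsimp only at h
    have h5 : (m:ℝ) * Complex.arg z = m * Complex.arg w := by rw [← h2, ← h4, h]
    have h6 : Complex.arg z = Complex.arg w := mul_left_cancel₀ hm0.ne' h5
    have h7 : ‖z‖ = ‖w‖ := by
      have h8 := congrArg norm h
      rw [norm_pow, norm_pow] at h8
      exact (pow_left_inj₀ (norm_nonneg _) (norm_nonneg _) (by omega)).mp h8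
    exact Complex.ext_norm_arg h7 h6

theorem main_sector {α : K} (hα : IsIntegral ℤ α) (h0 : α ≠ 0)
    (hroot : ∀ n : ℕ, 0 < n → α ^ n ≠ 1) (k : ℕ) (hk : 1 ≤ k) {θ : ℝ}
    (hθ : k * θ ≤ (sec θ (conjSet α)).card / (8 * finrank ℚ K)) :
    ((k : ℝ) * (sec θ (conjSet α)).card) ^ 2 ≤
      130 * (finrank ℚ K * k) * (k ^ 2 * lam α) +
        52 * (finrank ℚ K * k) * (1 + Real.log (finrank ℚ K * k)) := by
  classical
  set n := finrank ℚ K with hn
  have hn0 : 0 < n := finrank_pos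
  set R := (sec θ (conjSet α)).card with hR
  set Z := Zk α k with hZ
  have hcard : Z.card ≤ n * k := Zk_card α k
  have hcard' : (Z.card : ℝ) ≤ n * k := by exact_mod_cast hcard
  have hn0' : (0:ℝ) < n := by exact_mod_cast hn0
  have hk0 : (0:ℝ) < k := by exact_mod_cast hk
  have hnk : (1:ℝ) ≤ n * k := by
    have : 1 ≤ n * k := Nat.mul_pos hn0 hk
    exact_mod_cast this
  have hRn : (R:ℝ) ≤ n := by
    have h1 : R ≤ n := (Finset.card_le_card (by unfold sec; exact Finset.filter_subset _ _)).trans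
      (card_conjSet_le α)
    exact_mod_cast h1
  have hθ8 : k * θ ≤ 1 / 8 := by
    refine hθ.trans ?_
    rw [div_le_div_iff₀ (by positivity) (by norm_num)]
    linarith
  have hθpi : k * θ < Real.pi / 2 := by linarith [Real.pi_gt_three]
  -- the number of elements of the sector
  have hpos : k * R ≤ (sec (k * θ) Z).card := by
    have h1 : (Finset.Icc 1 k).biUnion (fun m => sec (k * θ) (conjSet (α ^ m))) ⊆
        sec (k * θ) Z := by
      intro z hz
      rw [Finset.mem_biUnion] at hz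
      obtain ⟨m, hm, hz⟩ := hz
      unfold sec at hz ⊢
      rw [Finset.mem_filter] at hz ⊢
      exact ⟨mem_Zk.mpr ⟨m, hm, hz.1⟩, hz.2⟩
    have h2 : Set.PairwiseDisjoint (↑(Finset.Icc 1 k))
        (fun m => sec (k * θ) (conjSet (α ^ m))) := by
      intro m _ l _ hml
      refine Finset.disjoint_of_subset_left ?_ (Finset.disjoint_of_subset_right ?_
        (conj_disjoint hα h0 hroot hml))
      · unfold sec; exact Finset.filter_subset _ _
      · unfold sec; exact Finset.filter_subset _ _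
    refine le_trans ?_ (Finset.card_le_card h1)
    rw [Finset.card_biUnion (fun m hm l hl hml => h2 hm hl hml)]
    calc k * R = ∑ m ∈ Finset.Icc 1 k, R := by
          rw [Finset.sum_const, Nat.card_Icc]; simp
      _ ≤ _ := Finset.sum_le_sum fun m hm => by
          obtain ⟨hm1, hm2⟩ := Finset.mem_Icc.mp hm
          exact card_sec_pow h0 hm1 hm2 hθpi
  have hposR : (k : ℝ) * R ≤ (sec (k * θ) Z).card := by exact_mod_cast hpos
  have hpos' : ((k : ℝ) * R) ^ 2 ≤ ((sec (k * θ) Z).card : ℝ) ^ 2 :=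
    pow_le_pow_left₀ (by positivity) hposR 2
  have hthin : k * θ ≤ ((sec (k * θ) Z).card : ℝ) / (8 * Z.card) := by
    rcases Nat.eq_zero_or_pos Z.card with h | h
    · -- impossible
      exfalso
      have h1 : Z = ∅ := Finset.card_eq_zero.mp h
      obtain ⟨σ⟩ : Nonempty (K →ₐ[ℚ] ℂ) := by
        rw [← Fintype.card_pos_iff, AlgHom.card]; exact hn0
      have h2 : σ (α ^ 1) ∈ Z := mem_Zk.mpr ⟨1, Finset.mem_Icc.mpr ⟨le_rfl, hk⟩,
        mem_conjSet.mpr ⟨σ, rfl⟩⟩
      rw [h1] at h2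
      exact absurd h2 (Finset.notMem_empty _)
    · have hc0 : (0:ℝ) < Z.card := by exact_mod_cast h
      refine hθ.trans ?_
      rw [div_le_div_iff₀ (by positivity) (by positivity)]
      have h3 : (R:ℝ) * (8 * Z.card) ≤ R * (8 * (n * k)) := by
        apply mul_le_mul_of_nonneg_left _ (Nat.cast_nonneg _)
        linarith
      have h4 : (R:ℝ) * (8 * (n * k)) = (k * R) * (8 * n) := by ring
      have h5 : (k * R : ℝ) * (8 * n) ≤ (sec (k * θ) Z).card * (8 * n) :=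
        mul_le_mul_of_nonneg_right hposR (by positivity)
      linarith
  have hmain := count_sector Z (k * θ) hthin (Zk_zero h0 k) (Zk_disc hα h0 hroot k)
    (Zk_prod hα h0 hroot k)
  have hlam := Zk_lam hα h0 hroot k
  refine hpos'.trans (hmain.trans ?_)
  have hlogle : Real.log Z.card ≤ Real.log (n * k) := by
    rcases Nat.eq_zero_or_pos Z.card with h | h
    · rw [h]; simp only [Nat.cast_zero, Real.log_zero]; exact Real.log_nonneg hnk
    · exact Real.log_le_log (by exact_mod_cast h) hcard'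
  have hs0 : 0 ≤ ∑ z ∈ Z, Real.log (max 1 ‖z‖) :=
    Finset.sum_nonneg fun z _ => Real.log_nonneg (le_max_left _ _)
  have hlc : 0 ≤ Real.log Z.card := Real.log_natCast_nonneg _
  have h1 : 130 * (Z.card : ℝ) * (∑ z ∈ Z, Real.log (max 1 ‖z‖)) ≤
      130 * (n * k) * (k ^ 2 * lam α) := by
    have := mul_le_mul (mul_le_mul_of_nonneg_left hcard' (by norm_num : (0:ℝ) ≤ 130)) hlam hs0
      (by positivity)
    exact this
  have h2 : 52 * (Z.card : ℝ) * (1 + Real.log Z.card) ≤ 52 * (n * k) * (1 + Real.log (n * k)) := by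
    exact mul_le_mul (mul_le_mul_of_nonneg_left hcard' (by norm_num : (0:ℝ) ≤ 52))
      (by linarith) (by linarith) (by positivity)
  linarith

end Pool.Agent.TH869.LS
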