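import Mathlib
import Pool.Agent.H389R3.LR6
import Pool.Agent.TH869.LS.S2

/-!
# The lower bound in terms of the number of zeros in thin sectors
-/

set_option autoImplicit false

open Finset Polynomial Module IntermediateField

namespace Pool.Agent.TH869.LS

open Pool.Agent.H388SL Pool.Agent.H389R3.LR

/-- choice of the number of powers -/
lemma real_choice_sector {n R l lam : ℝ} (hn : 1 ≤ n) (hR : 1 ≤ R) (hl : l = Real.log (2 * n))
    (hlam : 0 ≤ lam)
    (H : ∀ k : ℕ, 1 ≤ k → (k : ℝ) ≤ 2048 * n * l / R ^ 2 + 1 → (k * R) ^ 2 ≤ 130 * (n * k) * (k ^ 2 * lam) +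
      52 * (n * k) * (1 + Real.log (n * k))) :
    min (R ^ 2 / n) (R ^ 4 / (n ^ 2 * l)) ≤ 1064960 * lam := by
  have hlog2 : 0.6931471803 < Real.log 2 := Real.log_two_gt_d9
  have hlog2' : Real.log 2 < 0.6931471808 := Real.log_two_lt_d9
  have hl2 : Real.log 2 ≤ l := by
    rw [hl]
    exact Real.log_le_log two_pos (by linarith)
  have hl0 : 0 < l := by linarith
  have hlle : l ≤ 2 * n := by
    rw [hl]
    have := Real.log_le_sub_one_of_pos (show 0 < 2 * n by linarith)
    linarith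
  have hn0 : 0 < n := by linarith
  have hR0 : 0 < R := by linarith
  set x : ℝ := 2048 * n * l / R ^ 2 with hx
  have hx0 : 0 < x := by positivity
  set k : ℕ := ⌈x⌉₊ with hk
  have hk1 : 1 ≤ k := Nat.one_le_iff_ne_zero.mpr (Nat.ceil_pos.mpr hx0).ne'
  have hkx : x ≤ k := Nat.le_ceil x
  have hkx1 : (k:ℝ) < x + 1 := Nat.ceil_lt_add_one hx0.le
  have hk1' : (1:ℝ) ≤ k := by exact_mod_cast hk1
  have hk0 : (0:ℝ) < k := by linarith
  -- size of k
  have hR2 : 1 ≤ R ^ 2 := one_le_pow₀ hR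
  have hxle : x ≤ 2048 * n * l := by
    rw [hx]
    exact div_le_self (by positivity) hR2
  have hnl : 1 ≤ 2 * (n * l) := by nlinarith
  have hkle : (k:ℝ) ≤ 2050 * (n * l) := by linarith
  have hnk : n * k ≤ 4100 * n ^ 3 := by
    have h1 : n * k ≤ n * (2050 * (n * l)) := mul_le_mul_of_nonneg_left hkle hn0.le
    have h2 : n * (2050 * (n * l)) ≤ n * (2050 * (n * (2 * n))) := by
      apply mul_le_mul_of_nonneg_left _ hn0.le
      apply mul_le_mul_of_nonneg_left _ (by norm_num)
      exact mul_le_mul_of_nonneg_left hlle hn0.le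
    have h3 : n * (2050 * (n * (2 * n))) = 4100 * n ^ 3 := by ring
    linarith
  have hlog : Real.log (n * k) ≤ 3 * l + 10 * Real.log 2 := by
    have h1 : Real.log (n * k) ≤ Real.log (4100 * n ^ 3) :=
      Real.log_le_log (by positivity) hnk
    have h2 : (4100:ℝ) * n ^ 3 ≤ (2 * n) ^ 3 * 2 ^ 10 := by
      have : 0 < n ^ 3 := by positivity
      nlinarith
    have h3 : Real.log (4100 * n ^ 3) ≤ Real.log ((2 * n) ^ 3 * 2 ^ 10) :=
      Real.log_le_log (by positivity) h2
    have h4 : Real.log ((2 * n) ^ 3 * 2 ^ 10) = 3 * l + 10 * Real.log 2 := by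
      rw [Real.log_mul (by positivity) (by norm_num), Real.log_pow, Real.log_pow, hl]
      push_cast
      ring
    linarith
  have h1log : 1 + Real.log (n * k) ≤ 15 * l := by nlinarith
  have hH := H k hk1 hkx1.le
  have hbig : 52 * (n * k) * (1 + Real.log (n * k)) ≤ k * (k * R ^ 2) / 2 := by
    have h1 : 52 * (n * k) * (1 + Real.log (n * k)) ≤ 52 * (n * k) * (15 * l) :=
      mul_le_mul_of_nonneg_left h1log (by positivity)
    have h2 : 2048 * n * l ≤ k * R ^ 2 := by
      have h3 := mul_le_mul_of_nonneg_right hkx (by positivity : 0 ≤ R ^ 2)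
      have h4 : x * R ^ 2 = 2048 * n * l := by
        rw [hx]; field_simp
      linarith
    have h5 : k * (2048 * n * l) ≤ k * (k * R ^ 2) := mul_le_mul_of_nonneg_left h2 hk0.le
    have h6 : 0 ≤ k * n * l := by positivity
    nlinarith
  have h1 : k * (k * R ^ 2) / 2 ≤ 130 * (n * k) * (k ^ 2 * lam) := by
    have : (k * R) ^ 2 = k * (k * R ^ 2) := by ring
    rw [this] at hH
    linarith
  have h2 : R ^ 2 ≤ 260 * n * k * lam := by
    have h3 : k * (k * R ^ 2) ≤ k * (k * (260 * n * k * lam)) := by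
      have : k * (k * (260 * n * k * lam)) = 2 * (130 * (n * k) * (k ^ 2 * lam)) := by ring
      rw [this]; linarith
    exact le_of_mul_le_mul_left (le_of_mul_le_mul_left h3 hk0) hk0
  have h3 : R ^ 2 ≤ 260 * n * (x + 1) * lam := by
    have : 260 * n * k * lam ≤ 260 * n * (x + 1) * lam := by
      apply mul_le_mul_of_nonneg_right _ hlam
      exact mul_le_mul_of_nonneg_left hkx1.le (by positivity)
    linarith
  rcases le_total x 1 with hx1 | hx1
  · refine (min_le_left _ _).trans ?_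
    rw [div_le_iff₀ hn0]
    have h4 : 260 * n * (x + 1) * lam ≤ 260 * n * 2 * lam := by
      apply mul_le_mul_of_nonneg_right _ hlam
      exact mul_le_mul_of_nonneg_left (by linarith) (by positivity)
    have h5 : 0 ≤ n * lam := by positivity
    nlinarith
  · refine (min_le_right _ _).trans ?_
    rw [div_le_iff₀ (by positivity)]
    have h4 : 260 * n * (x + 1) * lam ≤ 260 * n * (2 * x) * lam := by
      apply mul_le_mul_of_nonneg_right _ hlam
      exact mul_le_mul_of_nonneg_left (by linarith) (by positivity)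
    have h5 : R ^ 2 ≤ 520 * n * x * lam := by linarith
    have h6 := mul_le_mul_of_nonneg_right h5 (by positivity : 0 ≤ R ^ 2)
    have h7 : 520 * n * x * lam * R ^ 2 = 1064960 * lam * (n ^ 2 * l) := by
      rw [hx]; field_simp; ring
    have h8 : R ^ 2 * R ^ 2 = R ^ 4 := by ring
    rw [h7, h8] at h6
    exact h6


section

variable {K : Type*} [Field K] [NumberField K]

theorem field_sector {β : K} (hβ : IsIntegral ℤ β) (h0 : β ≠ 0)
    (hroot : ∀ n : ℕ, 0 < n → β ^ n ≠ 1) {θ : ℝ} (hθ0 : 0 ≤ θ)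
    (hθ1 : 16 * finrank ℚ K * θ ≤ (sec θ (conjSet β)).card)
    (hθ2 : 32768 * (finrank ℚ K : ℝ) ^ 2 * Real.log (2 * finrank ℚ K) * θ ≤
      ((sec θ (conjSet β)).card : ℝ) ^ 3) :
    min (((sec θ (conjSet β)).card : ℝ) ^ 2 / finrank ℚ K)
      (((sec θ (conjSet β)).card : ℝ) ^ 4 / ((finrank ℚ K : ℝ) ^ 2 * Real.log (2 * finrank ℚ K)))
      ≤ 1064960 * lam β := by
  have hn0 : 0 < finrank ℚ K := finrank_pos
  have hn1 : (1:ℝ) ≤ finrank ℚ K := by exact_mod_cast hn0
  have hn0' : (0:ℝ) < finrank ℚ K := by linarith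
  rcases Nat.eq_zero_or_pos (sec θ (conjSet β)).card with h | h
  · rw [h]
    refine (min_le_left _ _).trans ?_
    have := lam_nonneg β
    simp only [Nat.cast_zero, ne_eq, OfNat.ofNat_ne_zero, not_false_eq_true, zero_pow, zero_div]
    positivity
  · refine real_choice_sector hn1 (by exact_mod_cast h) rfl (lam_nonneg β) ?_
    intro k hk hkx
    refine main_sector hβ h0 hroot k hk ?_
    set R : ℝ := ((sec θ (conjSet β)).card : ℝ) with hR
    set n : ℝ := (finrank ℚ K : ℝ) with hn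
    set l : ℝ := Real.log (2 * n) with hl
    have hR0 : 0 < R := by rw [hR]; exact_mod_cast h
    have h1 : k * θ ≤ (2048 * n * l / R ^ 2 + 1) * θ := mul_le_mul_of_nonneg_right hkx hθ0
    have h2 : 2048 * n * l / R ^ 2 * θ ≤ R / (16 * n) := by
      rw [div_mul_eq_mul_div, div_le_div_iff₀ (by positivity) (by positivity)]
      have : R * R ^ 2 = R ^ 3 := by ring
      rw [this]
      linarith
    have h3 : θ ≤ R / (16 * n) := by
      rw [le_div_iff₀ (by positivity)]
      linarith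
    have h4 : R / (8 * n) = R / (16 * n) + R / (16 * n) := by
      field_simp
      ring
    rw [h4]
    linarith

/-- the number of conjugates whose `q`-th power has argument at most `θ` in absolute value -/
noncomputable def secPow (α : K) (q : ℕ) (θ : ℝ) : ℕ := by
  classical exact ((conjSet α).filter fun z => |Complex.arg (z ^ q)| ≤ θ).card

lemma secPow_le {α : K} {q : ℕ} (hq : 1 ≤ q) (θ : ℝ) :
    secPow α q θ ≤ q * (sec θ (conjSet (α ^ q))).card := by
  classical
  unfold secPow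
  refine (Finset.card_le_mul_card_image_of_maps_to (f := fun z : ℂ => z ^ q)
    (t := sec θ (conjSet (α ^ q))) ?_ q ?_)
  · intro z hz
    rw [Finset.mem_filter] at hz
    obtain ⟨σ, hσ⟩ := mem_conjSet.mp hz.1
    unfold sec
    rw [Finset.mem_filter]
    exact ⟨mem_conjSet.mpr ⟨σ, by rw [map_pow, hσ]⟩, hz.2⟩
  · intro w _
    have h1 : (((conjSet α).filter fun z => |Complex.arg (z ^ q)| ≤ θ).filter
        fun z => z ^ q = w) ⊆ (Polynomial.nthRoots q w).toFinset := by
      intro z hz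
      rw [Finset.mem_filter] at hz
      rw [Multiset.mem_toFinset, Polynomial.mem_nthRoots (by omega)]
      exact hz.2
    refine (Finset.card_le_card h1).trans ?_
    exact (Multiset.toFinset_card_le _).trans (Polynomial.card_nthRoots _ _)

theorem sector_bound {α : K} (hα : IsIntegral ℤ α) (h0 : α ≠ 0)
    (hroot : ∀ n : ℕ, 0 < n → α ^ n ≠ 1) {q : ℕ} (hq : 1 ≤ q) {θ : ℝ} (hθ0 : 0 ≤ θ)
    (hθ1 : 16 * q * finrank ℚ K * θ ≤ secPow α q θ)
    (hθ2 : 32768 * (q : ℝ) ^ 3 * (finrank ℚ K : ℝ) ^ 2 * Real.log (2 * finrank ℚ K) * θ ≤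
      (secPow α q θ : ℝ) ^ 3) :
    min ((secPow α q θ : ℝ) ^ 2 / finrank ℚ K)
      ((secPow α q θ : ℝ) ^ 4 / ((finrank ℚ K : ℝ) ^ 2 * Real.log (2 * finrank ℚ K)))
      ≤ 1064960 * q ^ 5 * lam α := by
  have hn0 : 0 < finrank ℚ K := finrank_pos
  have hn1 : (1:ℝ) ≤ finrank ℚ K := by exact_mod_cast hn0
  have hq1 : (1:ℝ) ≤ q := by exact_mod_cast hq
  have hlog : 0 < Real.log (2 * finrank ℚ K) := Real.log_pos (by linarith)
  have h2 : (secPow α q θ : ℝ) ≤ q * (sec θ (conjSet (α ^ q))).card := by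
    have h := secPow_le (α := α) hq θ
    exact_mod_cast h
  set R : ℝ := (secPow α q θ : ℝ) with hR
  set P : ℝ := ((sec θ (conjSet (α ^ q))).card : ℝ) with hP
  set n : ℝ := (finrank ℚ K : ℝ) with hn
  set l : ℝ := Real.log (2 * n) with hl
  have hR0 : 0 ≤ R := Nat.cast_nonneg _
  have hP0 : 0 ≤ P := Nat.cast_nonneg _
  have hn0' : 0 < n := by linarith
  have hq0 : (0:ℝ) < q := by linarith
  have h1 := field_sector (hα.pow q) (pow_ne_zero q h0) (by
    intro m hm h
    rw [← pow_mul] at h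
    exact hroot _ (Nat.mul_pos (by omega) hm) h) (θ := θ) hθ0 (by
      have e : (q:ℝ) * (16 * n * θ) ≤ q * P := by
        calc (q:ℝ) * (16 * n * θ) = 16 * q * n * θ := by ring
          _ ≤ R := hθ1
          _ ≤ _ := h2
      exact le_of_mul_le_mul_left e hq0) (by
      have e1 : R ^ 3 ≤ (q * P) ^ 3 := pow_le_pow_left₀ hR0 h2 3
      have e : (q:ℝ) ^ 3 * (32768 * n ^ 2 * l * θ) ≤ q ^ 3 * P ^ 3 := by
        calc (q:ℝ) ^ 3 * (32768 * n ^ 2 * l * θ) = 32768 * q ^ 3 * n ^ 2 * l * θ := by ring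
          _ ≤ R ^ 3 := hθ2
          _ ≤ (q * P) ^ 3 := e1
          _ = _ := by ring
      exact le_of_mul_le_mul_left e (by positivity))
  rw [lam_pow] at h1
  have hR2 : R ^ 2 ≤ q ^ 2 * P ^ 2 := by
    have := pow_le_pow_left₀ hR0 h2 2
    calc R ^ 2 ≤ (q * P) ^ 2 := this
      _ = _ := by ring
  have hR4 : R ^ 4 ≤ q ^ 4 * P ^ 4 := by
    have := pow_le_pow_left₀ hR0 h2 4
    calc R ^ 4 ≤ (q * P) ^ 4 := this
      _ = _ := by ring
  have hq2 : (1:ℝ) ≤ (q:ℝ) ^ 2 := one_le_pow₀ hq1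
  have h3 : min (R ^ 2 / n) (R ^ 4 / (n ^ 2 * l)) ≤
      q ^ 4 * min (P ^ 2 / n) (P ^ 4 / (n ^ 2 * l)) := by
    rw [mul_min_of_nonneg _ _ (by positivity)]
    apply min_le_min
    · rw [← mul_div_assoc]
      apply div_le_div_of_nonneg_right _ hn0'.le
      refine hR2.trans ?_
      apply mul_le_mul_of_nonneg_right _ (by positivity)
      nlinarith
    · rw [← mul_div_assoc]
      exact div_le_div_of_nonneg_right hR4 (by positivity)
  refine h3.trans ?_
  have h4 := mul_le_mul_of_nonneg_left h1 (by positivity : (0:ℝ) ≤ (q:ℝ) ^ 4)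
  refine h4.trans (le_of_eq ?_)
  ring

end

/-- the number field and the algebraic integer of an irreducible monic polynomial -/
theorem exists_field (p : ℤ[X]) (hp : Irreducible p) (hm : p.Monic)
    (hM : 1 < (p.map (Int.castRingHom ℂ)).mahlerMeasure) :
    ∃ (L : Type) (_ : Field L) (_ : NumberField L) (α : L), IsIntegral ℤ α ∧ α ≠ 0 ∧
      (∀ n : ℕ, 0 < n → α ^ n ≠ 1) ∧ finrank ℚ L = p.natDegree ∧
      lam α = Real.log (p.map (Int.castRingHom ℂ)).mahlerMeasure ∧
      (p.map (Int.castRingHom ℂ)).roots = (conjSet α).val ∧ minpoly ℤ α = p ∧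
      Function.Injective (fun σ : L →ₐ[ℚ] ℂ => σ α) := by
  classical
  have hdeg : p.natDegree ≠ 0 := by
    intro h
    have := hm.natDegree_eq_zero.mp h
    exact hp.not_isUnit (this ▸ isUnit_one)
  obtain ⟨z, hz⟩ := IsAlgClosed.exists_aeval_eq_zero ℂ p (by
    intro h
    exact hdeg (natDegree_eq_of_degree_eq_some h))
  have hzi : IsIntegral ℤ z := ⟨p, hm, by rw [← Polynomial.aeval_def]; exact hz⟩
  have hzQ : IsIntegral ℚ z := hzi.tower_top
  have hmin : minpoly ℤ z = p := by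
    have h1 := minpoly.isIntegrallyClosed_dvd hzi hz
    have h2 : Associated (minpoly ℤ z) p :=
      (minpoly.irreducible hzi).associated_of_dvd hp h1
    exact eq_of_monic_of_associated (minpoly.monic hzi) hm h2
  have hfin : FiniteDimensional ℚ (adjoin ℚ {z}) := adjoin.finiteDimensional hzQ
  have hNF : NumberField (adjoin ℚ {z}) :=
    { to_charZero := inferInstance, to_finiteDimensional := hfin }
  set L := adjoin ℚ {z} with hL
  set α : L := AdjoinSimple.gen ℚ z with hα
  have hαz : algebraMap L ℂ α = z := AdjoinSimple.algebraMap_gen ℚ z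
  have hαi : IsIntegral ℤ α := by
    rw [← hαz] at hzi
    exact (isIntegral_algebraMap_iff (algebraMap L ℂ).injective).mp hzi
  have hαc : CInj α := by
    intro σ τ h
    apply adjoin_algHom_ext ℚ (s := {z})
    intro x hx
    rw [Set.mem_singleton_iff] at hx
    subst hx
    exact h
  have hminα : minpoly ℤ α = p := by
    rw [← hmin, ← hαz]
    exact (minpoly.algebraMap_eq (algebraMap L ℂ).injective α).symm
  have hpmap : p.map (Int.castRingHom ℂ) = ∏ τ : L →ₐ[ℚ] ℂ, (X - C (τ α)) := by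
    rw [← minpoly_map_eq hαc, minpoly.isIntegrallyClosed_eq_field_fractions' ℚ hαi, hminα,
      Polynomial.map_map]
    rfl
  have hMM : Real.log (p.map (Int.castRingHom ℂ)).mahlerMeasure = lam α := by
    rw [hpmap]
    have h1 : (∏ τ : L →ₐ[ℚ] ℂ, (X - C (τ α))).mahlerMeasure = ∏ τ : L →ₐ[ℚ] ℂ, max 1 ‖τ α‖ := by
      rw [Finset.prod_eq_multiset_prod, prod_mahlerMeasure_eq_mahlerMeasure_prod, Multiset.map_map,
        Finset.prod_eq_multiset_prod]
      congr 1
      refine Multiset.map_congr rfl fun τ _ => ?_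
      rw [Function.comp_apply, mahlerMeasure_X_sub_C]
    rw [h1, Real.log_prod]
    · rfl
    · intro τ _
      have : (0:ℝ) < max 1 ‖τ α‖ := lt_of_lt_of_le one_pos (le_max_left _ _)
      exact this.ne'
  have hfr : finrank ℚ L = p.natDegree := by
    rw [hL, adjoin.finrank hzQ, minpoly.isIntegrallyClosed_eq_field_fractions' ℚ hzi, hmin]
    exact natDegree_map_eq_of_injective (algebraMap ℤ ℚ).injective_int p
  have hlampos : 0 < lam α := by
    rw [← hMM]; exact Real.log_pos hM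
  have hα0 : α ≠ 0 := by
    intro h
    rw [h] at hlampos
    unfold lam at hlampos
    simp at hlampos
  have hαroot : ∀ n : ℕ, 0 < n → α ^ n ≠ 1 := by
    intro n hn h
    have h1 := lam_pow α n
    rw [h] at h1
    have h2 : lam (1 : L) = 0 := by unfold lam; simp
    rw [h2] at h1
    have h3 : (0:ℝ) < n := by exact_mod_cast hn
    have : 0 < (n:ℝ) * lam α := mul_pos h3 hlampos
    linarith
  refine ⟨L, inferInstance, hNF, α, hαi, hα0, hαroot, hfr, hMM.symm, ?_, hminα, hαc⟩
  have h1 := minpolyZ_map hαi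
  rw [hminα] at h1
  rw [h1, roots_prod_X_sub_C]

/-- the number of the complex zeros `z` of `f` (with multiplicity) with `|arg (z ^ q)| ≤ θ` -/
noncomputable def secRoots (f : ℤ[X]) (q : ℕ) (θ : ℝ) : ℕ := by
  classical exact Multiset.card ((f.map (Int.castRingHom ℂ)).roots.filter
    fun z => |Complex.arg (z ^ q)| ≤ θ)

theorem irr_sector (p : ℤ[X]) (hp : Irreducible p) (hm : p.Monic)
    (hM : 1 < (p.map (Int.castRingHom ℂ)).mahlerMeasure) {q : ℕ} (hq : 1 ≤ q) {θ : ℝ}
    (hθ0 : 0 ≤ θ) (hθ1 : 16 * q * p.natDegree * θ ≤ secRoots p q θ)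
    (hθ2 : 32768 * (q : ℝ) ^ 3 * (p.natDegree : ℝ) ^ 2 * Real.log (2 * p.natDegree) * θ ≤
      (secRoots p q θ : ℝ) ^ 3) :
    min ((secRoots p q θ : ℝ) ^ 2 / p.natDegree)
      ((secRoots p q θ : ℝ) ^ 4 / ((p.natDegree : ℝ) ^ 2 * Real.log (2 * p.natDegree)))
      ≤ 1064960 * q ^ 5 * Real.log (p.map (Int.castRingHom ℂ)).mahlerMeasure := by
  classical
  obtain ⟨L, _, _, α, hαi, hα0, hαroot, hfr, hMM, hroots, -, -⟩ := exists_field p hp hm hM
  have hR : secRoots p q θ = secPow α q θ := by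
    unfold secRoots secPow
    rw [hroots]
    rfl
  rw [hR] at hθ1 hθ2 ⊢
  rw [← hfr] at hθ1 hθ2 ⊢
  rw [← hMM]
  exact sector_bound hαi hα0 hαroot hq hθ0 hθ1 hθ2

end Pool.Agent.TH869.LS
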