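import Mathlib
import Pool.Agent.TH869.LS.S3
import Pool.Agent.TH869.LS.F1

/-!
# The norm of `1 - α` and the Mahler measure
-/

set_option autoImplicit false

open Finset Polynomial Module

namespace Pool.Agent.TH869.LS

open Pool.Agent.H388SL Pool.Agent.H389R3.LR

section

variable {K : Type*} [Field K] [NumberField K]

/-- logarithm of the absolute value of the norm of `1 - α` -/
noncomputable def dist1 (α : K) : ℝ := ∑ σ : K →ₐ[ℚ] ℂ, Real.log ‖1 - σ α‖

lemma dist1_pow_le {α : K} (hα : IsIntegral ℤ α) {m : ℕ} (hm : α ^ m ≠ 1) :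
    dist1 α ≤ dist1 (α ^ m) := by
  set w : K := ∑ i ∈ Finset.range m, α ^ i with hw
  have hα1 : α ≠ 1 := by
    rintro rfl
    exact hm (one_pow m)
  have hfac : (1 - α ^ m) = (1 - α) * w := by
    rw [hw, mul_comm, ← neg_sub α 1, mul_neg, geom_sum_mul]
    ring
  have hw0 : w ≠ 0 := by
    intro h
    rw [h, mul_zero] at hfac
    exact hm (sub_eq_zero.mp hfac).symm
  have hwi : IsIntegral ℤ w := by
    rw [hw]
    exact IsIntegral.sum _ fun i _ => hα.pow i
  have h1 := one_le_prod_norm hwi hw0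
  have h2 : 0 ≤ ∑ σ : K →ₐ[ℚ] ℂ, Real.log ‖σ w‖ := by
    rw [← Real.log_prod fun σ _ => norm_ne_zero_iff.mpr ((map_ne_zero σ).mpr hw0)]
    exact Real.log_nonneg h1
  unfold dist1
  have h3 : ∑ σ : K →ₐ[ℚ] ℂ, Real.log ‖1 - σ (α ^ m)‖ =
      ∑ σ : K →ₐ[ℚ] ℂ, Real.log ‖1 - σ α‖ + ∑ σ : K →ₐ[ℚ] ℂ, Real.log ‖σ w‖ := by
    rw [← Finset.sum_add_distrib]
    refine Finset.sum_congr rfl fun σ _ => ?_
    have h4 : 1 - σ (α ^ m) = (1 - σ α) * σ w := by
      have := congrArg σ hfac
      rw [map_sub, map_one, map_mul, map_sub, map_one] at this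
      exact this
    rw [h4, norm_mul, Real.log_mul]
    · rw [norm_ne_zero_iff, sub_ne_zero]
      intro h5
      exact hα1 ((map_eq_one_iff σ σ.injective).mp h5.symm)
    · rw [norm_ne_zero_iff]
      exact (map_ne_zero σ).mpr hw0
  rw [h3]
  linarith

lemma sum_conjSet {M : Type*} [AddCommMonoid M] {β : K} (hβ : CInj β) (F : ℂ → M) :
    ∑ z ∈ conjSet β, F z = ∑ σ : K →ₐ[ℚ] ℂ, F (σ β) := by
  classical
  unfold conjSet
  rw [Finset.sum_image]
  intro σ _ τ _ h
  exact hβ h

lemma sum_Zk {α : K} (hα : IsIntegral ℤ α) (h0 : α ≠ 0)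
    (hroot : ∀ n : ℕ, 0 < n → α ^ n ≠ 1) (hinj : ∀ m : ℕ, 0 < m → CInj (α ^ m)) (k : ℕ)
    (F : ℂ → ℝ) : ∑ z ∈ Zk α k, F z =
      ∑ m ∈ Finset.Icc 1 k, ∑ σ : K →ₐ[ℚ] ℂ, F (σ (α ^ m)) := by
  classical
  unfold Zk
  rw [Finset.sum_biUnion (Zk_disj hα h0 hroot k)]
  refine Finset.sum_congr rfl fun m hm => ?_
  exact sum_conjSet (hinj m (Finset.mem_Icc.mp hm).1) F

theorem main_F {α : K} (hα : IsIntegral ℤ α) (h0 : α ≠ 0)
    (hroot : ∀ n : ℕ, 0 < n → α ^ n ≠ 1) (hinj : ∀ m : ℕ, 0 < m → CInj (α ^ m)) (k : ℕ)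
    (hk : 1 ≤ k) {x : ℝ} (hx : 0 ≤ x) (hxle : x ≤ k * dist1 α - k ^ 2 * lam α - 1) :
    x ^ 2 ≤ Real.log (finrank ℚ K * k) * (2 * (finrank ℚ K * k) * (k ^ 2 * lam α) +
      (finrank ℚ K * k) * (1 + Real.log (finrank ℚ K * k))) := by
  classical
  set n := finrank ℚ K with hn
  have hn0 : 0 < n := finrank_pos
  set Z := Zk α k with hZ
  have hcard : Z.card ≤ n * k := Zk_card α k
  have hcard' : (Z.card : ℝ) ≤ n * k := by exact_mod_cast hcard
  have hnk : (1:ℝ) ≤ n * k := by
    have : 1 ≤ n * k := Nat.mul_pos hn0 hk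
    exact_mod_cast this
  have hne : 1 ≤ Z.card := by
    obtain ⟨σ⟩ : Nonempty (K →ₐ[ℚ] ℂ) := by
      rw [← Fintype.card_pos_iff, AlgHom.card]; exact hn0
    have h2 : σ (α ^ 1) ∈ Z := mem_Zk.mpr ⟨1, Finset.mem_Icc.mpr ⟨le_rfl, hk⟩,
      mem_conjSet.mpr ⟨σ, rfl⟩⟩
    exact Finset.card_pos.mpr ⟨_, h2⟩
  have h1Z : (1:ℂ) ∉ Z := by
    intro h
    rw [hZ, mem_Zk] at h
    obtain ⟨m, hm, h⟩ := h
    obtain ⟨σ, hσ⟩ := mem_conjSet.mp h
    exact hroot m (Finset.mem_Icc.mp hm).1 ((map_eq_one_iff σ σ.injective).mp hσ)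
  have hlam := Zk_lam hα h0 hroot k
  have hpot : k * dist1 α ≤ ∑ z ∈ Z, Real.log ‖1 - z‖ := by
    rw [hZ, sum_Zk hα h0 hroot hinj k]
    calc (k:ℝ) * dist1 α = ∑ m ∈ Finset.Icc 1 k, dist1 α := by
          rw [Finset.sum_const, Nat.card_Icc, nsmul_eq_mul]; simp
      _ ≤ _ := Finset.sum_le_sum fun m hm =>
          dist1_pow_le hα (hroot m (Finset.mem_Icc.mp hm).1)
  have hs0 : 0 ≤ ∑ z ∈ Z, Real.log (max 1 ‖z‖) :=
    Finset.sum_nonneg fun z _ => Real.log_nonneg (le_max_left _ _)
  have hmain := potential_sq Z (Zk_zero h0 k) h1Z hne (Zk_disc hα h0 hroot k) hx (by linarith)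
  refine hmain.trans ?_
  have hc1 : (1:ℝ) ≤ Z.card := by exact_mod_cast hne
  have hlogle : Real.log Z.card ≤ Real.log (n * k) := Real.log_le_log (by linarith) hcard'
  have hlc : 0 ≤ Real.log Z.card := Real.log_natCast_nonneg _
  have hlnk : 0 ≤ Real.log (n * k) := Real.log_nonneg hnk
  apply mul_le_mul hlogle _ (by positivity) hlnk
  apply add_le_add
  · exact mul_le_mul (mul_le_mul_of_nonneg_left hcard' (by norm_num)) hlam hs0 (by positivity)
  · exact mul_le_mul hcard' (by linarith) (by linarith) (by positivity)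

end

/-- choice of the number of powers -/
lemma choice_F {n L l lam : ℝ} (hn : 1 ≤ n) (hL : Real.log 2 ≤ L) (hl : l = Real.log (2 * n))
    (hlam : 0 ≤ lam)
    (H : ∀ k : ℕ, 1 ≤ k → ∀ x : ℝ, 0 ≤ x → x ≤ k * L - k ^ 2 * lam - 1 →
      x ^ 2 ≤ Real.log (n * k) * (2 * (n * k) * (k ^ 2 * lam) + (n * k) * (1 + Real.log (n * k)))) :
    min L (min (L ^ 2 / (n * l)) (L ^ 4 / (n ^ 2 * l ^ 3))) ≤ 1728000 * lam := by
  have hlog2 : 0.6931471803 < Real.log 2 := Real.log_two_gt_d9
  have hlog2' : Real.log 2 < 0.6931471808 := Real.log_two_lt_d9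
  have hl2 : Real.log 2 ≤ l := by
    rw [hl]
    exact Real.log_le_log two_pos (by linarith)
  have hl0 : 0 < l := by linarith
  have hn0 : 0 < n := by linarith
  have hL0 : 0 < L := by linarith
  have hL2 : 0.48 ≤ L ^ 2 := by nlinarith
  set e : ℝ := 15 * l with he
  have he10 : 10 ≤ e := by rw [he]; linarith
  have he0 : 0 < e := by linarith
  set x : ℝ := 16 * n * e ^ 2 / L ^ 2 with hx
  have hx0 : 0 < x := by positivity
  set k : ℕ := ⌈x⌉₊ with hk
  have hk1 : 1 ≤ k := Nat.one_le_iff_ne_zero.mpr (Nat.ceil_pos.mpr hx0).ne'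
  have hkx : x ≤ k := Nat.le_ceil x
  have hkx1 : (k:ℝ) < x + 1 := Nat.ceil_lt_add_one hx0.le
  have hk1' : (1:ℝ) ≤ k := by exact_mod_cast hk1
  have hk0 : (0:ℝ) < k := by linarith
  have hxL : x * L ^ 2 = 16 * n * e ^ 2 := by rw [hx]; field_simp
  -- size of `k`
  have hkle : (k:ℝ) ≤ 34 * (n * e ^ 2) := by
    have h1 : x ≤ 33.4 * (n * e ^ 2) := by
      rw [hx, div_le_iff₀ (by positivity)]
      have h2 : 0 < n * e ^ 2 := by positivity
      nlinarith
    have h3 : 100 ≤ n * e ^ 2 := by nlinarith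
    nlinarith
  have hlog : 1 + Real.log (n * k) ≤ e := by
    have h1 : n * k ≤ 34 * (n ^ 2 * e ^ 2) := by
      have := mul_le_mul_of_nonneg_left hkle hn0.le
      nlinarith
    have h2 : Real.log (n * k) ≤ Real.log (34 * (n ^ 2 * e ^ 2)) :=
      Real.log_le_log (by positivity) h1
    have h3 : Real.log (34 * (n ^ 2 * e ^ 2)) ≤
        6 * Real.log 2 + 2 * Real.log n + 2 * Real.log e := by
      have h4 : (34:ℝ) * (n ^ 2 * e ^ 2) ≤ 2 ^ 6 * (n ^ 2 * e ^ 2) := by
        have : 0 < n ^ 2 * e ^ 2 := by positivity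
        nlinarith
      refine (Real.log_le_log (by positivity) h4).trans (le_of_eq ?_)
      rw [Real.log_mul (by positivity) (by positivity), Real.log_mul (by positivity) (by positivity),
        Real.log_pow, Real.log_pow, Real.log_pow]
      push_cast
      ring
    have h5 : Real.log n = l - Real.log 2 := by
      rw [hl, Real.log_mul two_ne_zero hn0.ne']; ring
    have h6 : Real.log e ≤ 4 * Real.log 2 + (l - 1) := by
      have h7 : e ≤ 2 ^ 4 * l := by rw [he]; linarith
      have h8 := Real.log_le_log he0 h7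
      have h8' : Real.log ((2:ℝ) ^ 4 * l) = 4 * Real.log 2 + Real.log l := by
        rw [Real.log_mul (by positivity) hl0.ne', Real.log_pow]
        push_cast
        ring
      have h9 := Real.log_le_sub_one_of_pos hl0
      linarith
    rw [he]
    linarith
  have hlog0 : 0 ≤ Real.log (n * k) := Real.log_nonneg (by nlinarith)
  by_cases hc : k * L / 2 ≤ k ^ 2 * lam + 1
  · -- the height is large at once
    have hkL : 4 ≤ k * L := by
      rcases le_or_gt (4:ℝ) L with h | h
      · nlinarith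
      · have h1 : 16 * n * e ^ 2 ≤ k * L ^ 2 := by
          rw [← hxL]; exact mul_le_mul_of_nonneg_right hkx (by positivity)
        have h2 : 16 * n * e ^ 2 ≥ 16 := by nlinarith
        nlinarith
    have h1 : L ≤ 4 * k * lam := by
      have h2 : k * L / 4 ≤ k ^ 2 * lam := by linarith
      have h3 : k * (L / 4) ≤ k * (k * lam) := by nlinarith
      have h4 := le_of_mul_le_mul_left h3 hk0
      linarith
    rcases le_total x 1 with hx1 | hx1
    · refine (min_le_left _ _).trans ?_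
      have hk2 : (k:ℝ) ≤ 2 := by linarith
      have h5 : 4 * k * lam ≤ 4 * 2 * lam := by
        apply mul_le_mul_of_nonneg_right _ hlam
        linarith
      linarith
    · refine (min_le_right _ _).trans ((min_le_right _ _).trans ?_)
      have hk2 : (k:ℝ) ≤ 2 * x := by linarith
      have h5 : L ≤ 8 * x * lam := by
        have : 4 * k * lam ≤ 4 * (2 * x) * lam := by
          apply mul_le_mul_of_nonneg_right _ hlam
          linarith
        linarith
      rw [div_le_iff₀ (by positivity)]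
      -- `L ^ 3 ≤ 128 n e ^ 2 lam`
      have h6 : L ^ 3 ≤ 128 * (n * e ^ 2) * lam := by
        have h7 := mul_le_mul_of_nonneg_right h5 (by positivity : 0 ≤ L ^ 2)
        have h8 : 8 * x * lam * L ^ 2 = 8 * lam * (x * L ^ 2) := by ring
        rw [h8, hxL] at h7
        nlinarith
      -- `L ≤ 4 n e`
      have h9 : L ≤ 4 * n * e := by
        have h10 : L ^ 2 ≤ 16 * n * e ^ 2 := by
          rw [← hxL]; nlinarith [sq_nonneg L]
        have h11 : L ^ 2 ≤ (4 * n * e) ^ 2 := by
          have : (4 * n * e) ^ 2 = 16 * n * e ^ 2 * n := by ring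
          rw [this]
          nlinarith [mul_pos hn0 (pow_pos he0 2)]
        exact le_of_sq_le_sq h11 (by positivity)
      have h12 : L ^ 4 ≤ 128 * (n * e ^ 2) * lam * (4 * n * e) := by
        have : L ^ 4 = L ^ 3 * L := by ring
        rw [this]
        exact mul_le_mul h6 h9 hL0.le (by positivity)
      have h13 : 128 * (n * e ^ 2) * lam * (4 * n * e) = 1728000 * lam * (n ^ 2 * l ^ 3) := by
        rw [he]; ring
      linarith
  · push Not at hc
    have hH := H k hk1 (k * L / 2) (by positivity) (by linarith)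
    have h1 : (k * L / 2) ^ 2 ≤ e * (2 * (n * k) * (k ^ 2 * lam) + (n * k) * e) := by
      refine hH.trans ?_
      apply mul_le_mul (by linarith) _ (by positivity) he0.le
      have : (n * k) * (1 + Real.log (n * k)) ≤ (n * k) * e :=
        mul_le_mul_of_nonneg_left hlog (by positivity)
      linarith
    have h2 : k * L ^ 2 ≤ 8 * n * k ^ 2 * lam * e + 4 * n * e ^ 2 := by
      have h3 : k * (k * L ^ 2) ≤ k * (8 * n * k ^ 2 * lam * e + 4 * n * e ^ 2) := by
        nlinarith
      exact le_of_mul_le_mul_left h3 hk0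
    have h4 : 16 * n * e ^ 2 ≤ k * L ^ 2 := by
      rw [← hxL]; exact mul_le_mul_of_nonneg_right hkx (by positivity)
    have h5 : L ^ 2 ≤ 11 * n * k * lam * e := by
      have h6 : k * L ^ 2 ≤ k * (11 * n * k * lam * e) := by
        have h7 : 3 / 4 * (k * L ^ 2) ≤ 8 * n * k ^ 2 * lam * e := by linarith
        have h8 : 0 ≤ n * k ^ 2 * lam * e := by positivity
        have h9 : k * (11 * n * k * lam * e) = 11 * (n * k ^ 2 * lam * e) := by ring
        rw [h9]
        linarith
      exact le_of_mul_le_mul_left h6 hk0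
    rcases le_total x 1 with hx1 | hx1
    · refine (min_le_right _ _).trans ((min_le_left _ _).trans ?_)
      rw [div_le_iff₀ (by positivity)]
      have hk2 : (k:ℝ) ≤ 2 := by linarith
      have h6 : 11 * n * k * lam * e ≤ 11 * n * 2 * lam * e := by
        apply mul_le_mul_of_nonneg_right _ he0.le
        apply mul_le_mul_of_nonneg_right _ hlam
        apply mul_le_mul_of_nonneg_left hk2 (by positivity)
      have h7 : 11 * n * 2 * lam * e = 330 * (lam * (n * l)) := by rw [he]; ring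
      have h8 : 0 ≤ lam * (n * l) := by positivity
      linarith
    · refine (min_le_right _ _).trans ((min_le_right _ _).trans ?_)
      rw [div_le_iff₀ (by positivity)]
      have hk2 : (k:ℝ) ≤ 2 * x := by linarith
      have h6 : L ^ 2 ≤ 22 * n * x * lam * e := by
        have : 11 * n * k * lam * e ≤ 11 * n * (2 * x) * lam * e := by
          apply mul_le_mul_of_nonneg_right _ he0.le
          apply mul_le_mul_of_nonneg_right _ hlam
          apply mul_le_mul_of_nonneg_left hk2 (by positivity)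
        linarith
      have h7 := mul_le_mul_of_nonneg_right h6 (by positivity : 0 ≤ L ^ 2)
      have h8 : 22 * n * x * lam * e * L ^ 2 = 22 * n * lam * e * (x * L ^ 2) := by ring
      rw [h8, hxL] at h7
      have h9 : 22 * n * lam * e * (16 * n * e ^ 2) = 1188000 * (lam * (n ^ 2 * l ^ 3)) := by
        rw [he]; ring
      rw [h9] at h7
      have h10 : L ^ 2 * L ^ 2 = L ^ 4 := by ring
      rw [h10] at h7
      have h11 : 0 ≤ lam * (n ^ 2 * l ^ 3) := by positivity
      linarith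

end Pool.Agent.TH869.LS
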