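import Mathlib
import Pool.Agent.TH869.LS.F2

/-!
# The lower bound in terms of the number of points of period `q`
-/

set_option autoImplicit false

open Finset Polynomial Module IntermediateField

namespace Pool.Agent.TH869.LS

open Pool.Agent.H388SL Pool.Agent.H389R3.LR

section

variable {K : Type*} [Field K] [NumberField K]

lemma exists_int_norm {w : K} (hw : IsIntegral ℤ w) (h0 : w ≠ 0) :
    ∃ m : ℤ, m ≠ 0 ∧ ∏ σ : K →ₐ[ℚ] ℂ, ‖σ w‖ = |(m : ℝ)| := by
  have h1 := Algebra.norm_eq_prod_embeddings ℚ ℂ w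
  have h2 : IsIntegral ℤ (Algebra.norm ℚ w) := Algebra.isIntegral_norm ℚ hw
  obtain ⟨n, hn⟩ := IsIntegrallyClosed.isIntegral_iff.mp h2
  have hn0 : n ≠ 0 := by
    rintro rfl
    rw [map_zero] at hn
    exact h0 (Algebra.norm_eq_zero_iff.mp hn.symm)
  refine ⟨n, hn0, ?_⟩
  rw [← norm_prod, ← h1, ← hn]
  rw [eq_intCast, eq_ratCast, Rat.cast_intCast, Complex.norm_intCast]

lemma dist1_eq_log {β : K} (hβ1 : β ≠ 1) :
    dist1 β = Real.log (∏ σ : K →ₐ[ℚ] ℂ, ‖σ (1 - β)‖) := by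
  unfold dist1
  rw [Real.log_prod]
  · refine Finset.sum_congr rfl fun σ _ => ?_
    rw [map_sub, map_one]
  · intro σ _
    rw [norm_ne_zero_iff]
    exact (map_ne_zero σ).mpr (sub_ne_zero.mpr hβ1.symm)

lemma dist1_cases {β : K} (hβ : IsIntegral ℤ β) (hβ1 : β ≠ 1) :
    dist1 β = 0 ∨ Real.log 2 ≤ dist1 β := by
  obtain ⟨m, hm0, hm⟩ := exists_int_norm (w := 1 - β) (isIntegral_one.sub hβ)
    (sub_ne_zero.mpr hβ1.symm)
  rw [dist1_eq_log hβ1, hm]
  have h1 : 1 ≤ |m| := Int.one_le_abs hm0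
  rcases h1.eq_or_lt with h2 | h2
  · left
    have : |(m:ℝ)| = 1 := by exact_mod_cast h2.symm
    rw [this, Real.log_one]
  · right
    have h3 : (2:ℤ) ≤ |m| := h2
    have h4 : (2:ℝ) ≤ |(m:ℝ)| := by exact_mod_cast h3
    exact Real.log_le_log two_pos h4

theorem field_F {β : K} (hβ : IsIntegral ℤ β) (h0 : β ≠ 0)
    (hroot : ∀ n : ℕ, 0 < n → β ^ n ≠ 1) (hinj : ∀ m : ℕ, 0 < m → CInj (β ^ m)) :
    min (dist1 β) (min (dist1 β ^ 2 / (finrank ℚ K * Real.log (2 * finrank ℚ K)))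
      (dist1 β ^ 4 / ((finrank ℚ K : ℝ) ^ 2 * Real.log (2 * finrank ℚ K) ^ 3))) ≤
      1728000 * lam β := by
  have hn0 : 0 < finrank ℚ K := finrank_pos
  have hβ1 : β ≠ 1 := by
    intro h
    exact hroot 1 one_pos (by rw [h, one_pow])
  rcases dist1_cases hβ hβ1 with h | h
  · refine (min_le_left _ _).trans ?_
    rw [h]
    have := lam_nonneg β
    positivity
  · refine choice_F (by exact_mod_cast hn0) h rfl (lam_nonneg β) ?_
    intro k hk x hx hxle
    exact main_F hβ h0 hroot hinj k hk hx hxle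

end

/-- the absolute value of the resultant of `f` and `X ^ q - 1`, as a product over the zeros `z` of
`f`: `|a| ^ q ∏ |z ^ q - 1|`, `a` the leading coefficient -/
noncomputable def perCount (f : ℤ[X]) (q : ℕ) : ℝ :=
  |(f.leadingCoeff : ℝ)| ^ q *
    ((f.map (Int.castRingHom ℂ)).roots.map fun z => ‖z ^ q - 1‖).prod

/-- no quotient of two distinct zeros is a root of unity -/
def Nondeg (f : ℤ[X]) : Prop :=
  ∀ z w : ℂ, aeval z f = 0 → aeval w f = 0 → z ≠ w → ∀ m : ℕ, 0 < m → z ^ m ≠ w ^ m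

theorem irr_F (p : ℤ[X]) (hp : Irreducible p) (hm : p.Monic)
    (hM : 1 < (p.map (Int.castRingHom ℂ)).mahlerMeasure) (hnd : Nondeg p) {q : ℕ} (hq : 1 ≤ q) :
    min (Real.log (perCount p q))
      (min (Real.log (perCount p q) ^ 2 / (p.natDegree * Real.log (2 * p.natDegree)))
      (Real.log (perCount p q) ^ 4 / ((p.natDegree : ℝ) ^ 2 * Real.log (2 * p.natDegree) ^ 3))) ≤
      1728000 * (q * Real.log (p.map (Int.castRingHom ℂ)).mahlerMeasure) := by
  classical
  obtain ⟨L, _, _, α, hαi, hα0, hαroot, hfr, hMM, hroots, hmin, hαc⟩ := exists_field p hp hm hM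
  have hzero : ∀ σ : L →ₐ[ℚ] ℂ, aeval (σ α) p = 0 := by
    intro σ
    have h1 : aeval α p = 0 := by rw [← hmin]; exact minpoly.aeval ℤ α
    have h2 := map_aevalZ σ p α
    rw [h1, map_zero] at h2
    exact h2.symm
  have hinj : ∀ m : ℕ, 0 < m → CInj (α ^ m) := by
    intro m hm0 σ τ h
    have h1 : (σ α) ^ m = (τ α) ^ m := by
      have : σ (α ^ m) = τ (α ^ m) := h
      rwa [map_pow, map_pow] at this
    by_contra hne
    have h2 : σ α ≠ τ α := fun h3 => hne (hαc h3)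
    exact hnd _ _ (hzero σ) (hzero τ) h2 m hm0 h1
  have hq0 : 0 < q := hq
  have h := field_F (hαi.pow q) (pow_ne_zero q hα0) (by
    intro m hm h
    rw [← pow_mul] at h
    exact hαroot _ (Nat.mul_pos hq0 hm) h) (by
    intro m hm
    rw [← pow_mul]
    exact hinj _ (Nat.mul_pos hq0 hm))
  rw [lam_pow, hMM] at h
  have hdist : dist1 (α ^ q) = Real.log (perCount p q) := by
    unfold dist1 perCount
    rw [hm.leadingCoeff, Int.cast_one, abs_one, one_pow, one_mul, hroots]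
    have e1 : ((conjSet α).val.map fun z => ‖z ^ q - 1‖).prod = ∏ z ∈ conjSet α, ‖z ^ q - 1‖ := rfl
    have e2 : ∏ z ∈ conjSet α, ‖z ^ q - 1‖ = ∏ σ : L →ₐ[ℚ] ℂ, ‖(σ α) ^ q - 1‖ := by
      unfold conjSet
      rw [Finset.prod_image]
      intro σ _ τ _ h
      exact hαc h
    rw [e1, e2, Real.log_prod]
    · refine Finset.sum_congr rfl fun σ _ => ?_
      rw [map_pow, norm_sub_rev]
    · intro σ _
      rw [norm_ne_zero_iff, sub_ne_zero]
      intro h5
      rw [← map_pow] at h5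
      exact hαroot q hq0 ((map_eq_one_iff σ σ.injective).mp h5)
  rw [hdist, hfr] at h
  exact h

end Pool.Agent.TH869.LS
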